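import Mathlib

namespace Pool.Agent.Results.MP_361790_al.NoAdo

/-- anticommutativity and the degree 4 identity of CD algebras -/
def IsCD {B : Type} [AddCommGroup B] (m : B → B → B) : Prop :=
  (∀ x, m x x = 0) ∧ ∀ x y a b, m (m (m x y) a) b - m (m (m x y) b) a - m (m (m x a) b) y
    + m (m (m x b) a) y + m (m (m y a) b) x - m (m (m y b) a) x = 0

/-- the product `(a,m)(b,n) = (ab, a • n - b • m)` -/
def sd {A M : Type} [AddCommGroup M] (m : A → A → A) (act : A → M → M) (p q : A × M) : A × M :=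
  (m p.1 q.1, act p.1 q.2 - act q.1 p.2)

/-- every module over `(A, μ)` is killed by some nonzero element -/
def NoFaithful (K A : Type) [Field K] [AddCommGroup A] [Module K A] (m : A → A → A) : Prop :=
  ∀ (M : Type) [AddCommGroup M] [Module K M] (act : A →ₗ[K] M →ₗ[K] M),
    IsCD (sd m fun a v => act a v) → ∃ a : A, a ≠ 0 ∧ ∀ v, act a v = 0

theorem jac {K A : Type} [Field K] (h2 : (2 : K) ≠ 0) [AddCommGroup A] [Module K A]
    (μ : A →ₗ[K] A →ₗ[K] A) (hμ : ∀ x, μ x x = 0) (a b c : A)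
    (hJ : μ (μ a b) c + μ (μ b c) a + μ (μ c a) b ≠ 0) : NoFaithful K A fun x y => μ x y := by
  intro M _ _ act h
  refine ⟨_, hJ, fun v => ?_⟩
  have anti : ∀ x y, μ x y = -μ y x := by
    intro x y
    have := hμ (x + y)
    simp only [map_add, LinearMap.add_apply, hμ, zero_add, add_zero] at this
    exact eq_neg_of_add_eq_zero_right this
  have h1 := congrArg Prod.snd (h.2 (a, 0) (0, v) (b, 0) (c, 0))
  have h3 := congrArg Prod.snd (h.2 (b, 0) (0, v) (a, 0) (c, 0))
  have h4 := congrArg Prod.snd (h.2 (c, 0) (0, v) (a, 0) (b, 0))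
  simp only [sd, map_zero, LinearMap.zero_apply, sub_zero, zero_sub, map_neg, Prod.snd_sub,
    Prod.snd_add, Prod.snd_zero, neg_neg] at h1 h3 h4
  rw [anti b a, anti c a, anti c b] at *
  simp only [map_add, map_neg, LinearMap.add_apply, LinearMap.neg_apply] at *
  apply smul_right_injective M h2
  simp only [smul_zero]
  linear_combination (norm := module) -h1 + h3 - h4

theorem result (K : Type) [Field K] (h2 : (2 : K) ≠ 0) :
    (∀ (A : Type) [AddCommGroup A] [Module K A] (μ : A →ₗ[K] A →ₗ[K] A),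
      IsCD (fun x y => μ x y) → (∃ a b c, μ (μ a b) c + μ (μ b c) a + μ (μ c a) b ≠ 0) →
      NoFaithful K A fun x y => μ x y) ∧
    ∃ μ : (Fin 5 → K) →ₗ[K] (Fin 5 → K) →ₗ[K] (Fin 5 → K),
      IsCD (fun x y => μ x y) ∧ NoFaithful K (Fin 5 → K) fun x y => μ x y := by
  refine ⟨fun A _ _ μ h ⟨a, b, c, hJ⟩ => jac h2 μ h.1 a b c hJ, ?_⟩
  let μ : (Fin 5 → K) →ₗ[K] (Fin 5 → K) →ₗ[K] (Fin 5 → K) :=
    LinearMap.mk₂ K (fun x y => ![0, 0, 0, x 0 * y 1 - x 1 * y 0, x 3 * y 2 - x 2 * y 3])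
      (fun x y z => by ext i; fin_cases i <;> simp <;> ring)
      (fun c x y => by ext i; fin_cases i <;> simp <;> ring)
      (fun x y z => by ext i; fin_cases i <;> simp <;> ring)
      (fun c x y => by ext i; fin_cases i <;> simp <;> ring)
  have h0 : ∀ x, μ x x = 0 := fun x => by ext i; fin_cases i <;> simp [μ] <;> ring
  have h4 : ∀ x y z w, μ (μ (μ x y) z) w = 0 := fun x y z w => by
    ext i; fin_cases i <;> simp [μ]
  refine ⟨μ, ⟨h0, fun x y a b => by simp only [h4]; simp⟩,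
    jac h2 μ h0 ![1, 0, 0, 0, 0] ![0, 1, 0, 0, 0] ![0, 0, 1, 0, 0] fun h => ?_⟩
  simpa [μ] using congrFun h 4

end Pool.Agent.Results.MP_361790_al.NoAdo
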